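import Pool.Agent.H.MP_02b125_co.A

set_option autoImplicit false

namespace Pool.Agent.Results.MP_02b125_co.No

open Finset

/-- Points of the cube are identified with their sets of 1-coordinates. -/
abbrev Q (d : ℕ) := Finset (Fin d)

variable {d : ℕ} (S : Finset (Q d))

/-- A matched pair with A inside S and B inside the complement of S. -/
def MP (A B : Finset (Q d)) (φ : Q d → Q d) : Prop :=
  A ⊆ S ∧ B ⊆ Sᶜ ∧ Set.BijOn φ A B ∧ ∀ a ∈ A, a ⊂ φ a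

noncomputable def dvol : ℕ := sSup {n | ∃ A B φ, MP S A B φ ∧ #A = n}

noncomputable def sep : ℝ := sInf {r | ∃ A B φ, MP S A B φ ∧ #A = dvol S ∧
  r = (∑ a ∈ A, (#(φ a) - #a : ℝ)) / #A}

/-- σ on source arcs, τ on sink arcs, f on the edges of the directed cube. -/
def Flow (cE cV : ℝ) (σ τ : Q d → ℝ) (f : Q d → Q d → ℝ) : Prop :=
  (∀ v, 0 ≤ σ v ∧ 0 ≤ τ v ∧ (v ∉ S → σ v = 0) ∧ (v ∈ S → τ v = 0)) ∧
  (∀ x y, 0 ≤ f x y ∧ f x y ≤ cE ∧ (f x y ≠ 0 → ∃ i ∉ x, y = insert i x)) ∧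
  ∀ v, σ v + ∑ x, f x v = τ v + ∑ y, f v y ∧ σ v + ∑ x, f x v ≤ cV

noncomputable def maxflow (cE cV : ℝ) : ℝ :=
  sSup {w | ∃ σ τ f, Flow S cE cV σ τ f ∧ w = ∑ v, σ v}

open Pool.Agent.H.MP_02b125_co

theorem result : ¬ ∃ c : ℝ, 0 < c ∧ ∀ d, 2 ≤ d → ∀ S : Finset (Q d), 1 ≤ dvol S →
    c * sep S * dvol S ≤ maxflow S 1 (sep S ^ 2) := by
  classical
  rintro ⟨c, hc, H⟩
  obtain ⟨M, hM⟩ := num hc
  obtain ⟨k, hk⟩ := exists_nat_ge (M ^ 2)
  set L : ℝ := (2 * k + 1) * k.centralBinom / 4 ^ k with hL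
  obtain ⟨t, ht⟩ := hM L (by
    refine le_of_sq_le_sq (hk.trans ?_) (by positivity)
    rw [hL, div_pow, le_div_iff₀ (by positivity), ← pow_mul, mul_comm k 2, pow_mul]
    have : ((k + 1) * 16 ^ k : ℝ) ≤ ((2 * k + 1) * k.centralBinom) ^ 2 := by exact_mod_cast cb k
    norm_num
    nlinarith [pow_pos (show (0 : ℝ) < 16 by norm_num) k])
  obtain ⟨E, hE, cE⟩ := split (t + 1) (2 * k + 1)
  set 𝒜 : Fin (t + 1) → Finset (Q (2 * k + 1)) :=
    fun u => if u = 0 then univ.filter fun z => #z ≤ k else univ.filter fun z => 0 ∉ z with h𝒜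
  have hs : ∀ u z, zᶜ ∈ 𝒜 u ↔ z ∉ 𝒜 u := fun u z => by
    have := card_add_card_compl z
    rw [Fintype.card_fin] at this
    simp only [h𝒜]
    split_ifs <;> simp
    omega
  have hh : ∀ u, (#(𝒜 u) : ℝ) = 4 ^ k := fun u => by
    have := half (hs u)
    rw [pow_succ, pow_mul, show 2 ^ 2 = 4 from rfl] at this
    exact_mod_cast (by omega : #(𝒜 u) = 4 ^ k)
  choose ψ ψ1 ψ2 using fun u => hall (𝒜 := 𝒜 u) (fun a b h => by
    simp only [h𝒜]
    split_ifs <;> simp only [coe_filter, mem_univ, true_and, Set.mem_ofPred_eq]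
    exacts [(card_le_card h).trans, fun h1 h2 => h1 (h h2)]) (hs u)
  set G : Fin (t + 1) → Q (2 * k + 1) → Q (t + 1 + (2 * k + 1)) := fun u z => E.symm ({u}, z) with hG
  have EG : ∀ u z, E (G u z) = ({u}, z) := fun u z => E.apply_symm_apply _
  have cG : ∀ u z, #(G u z) = 1 + #z := fun u z => by rw [cE, EG, card_singleton]
  set X : (Fin (t + 1) → Finset (Q (2 * k + 1))) → Finset (Q (t + 1 + (2 * k + 1))) :=
    fun B => (univ.sigma B).image fun p => G p.1 p.2 with hX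
  have mX : ∀ B y, y ∈ X B ↔ ∃ u, ∃ z ∈ B u, G u z = y := fun B y => by simp [hX]
  have gi : ∀ {u v z w}, G u z = G v w → u = v ∧ z = w := fun h => by
    simpa [hG] using h
  have sX : ∀ B (g : _ → ℝ), ∑ y ∈ X B, g y = ∑ u, ∑ z ∈ B u, g (G u z) := fun B g => by
    rw [sum_image, sum_sigma]
    rintro ⟨u, z⟩ - ⟨v, w⟩ - h
    obtain ⟨rfl, rfl⟩ := gi h
    rfl
  set S : Finset (Q (t + 1 + (2 * k + 1))) :=
    (univ.filter fun y => 2 ≤ #(E y).1) ∪ X 𝒜 with hS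
  have mS : ∀ u z, G u z ∈ S ↔ z ∈ 𝒜 u := fun u z => by
    simp only [hS, mem_union, mem_filter, EG, card_singleton, mX]
    refine ⟨?_, fun h => Or.inr ⟨u, z, h, rfl⟩⟩
    rintro (h | ⟨v, w, h, e⟩)
    · omega
    · obtain ⟨rfl, rfl⟩ := gi e; exact h
  have key : ∀ a ∈ S, ∀ b ∉ S, a ⊆ b → ∃ u z w, z ∈ 𝒜 u ∧ w ∉ 𝒜 u ∧ G u z = a ∧ G u w = b ∧
      z ⊆ w := fun a ha b hb h => by
    obtain ⟨h1, h2⟩ := (hE a b).1 h
    have h3 : #(E b).1 < 2 := not_le.1 fun e => hb (mem_union_left _ (by simpa using e))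
    rcases mem_union.1 ha with e | e
    · have := card_le_card h1
      have := (mem_filter.1 e).2
      omega
    · obtain ⟨u, z, hz, rfl⟩ := (mX _ _).1 e
      rw [EG] at h1 h2
      have : G u (E b).2 = b := by
        have e' : {u} = (E b).1 := eq_of_subset_of_card_le h1 (by simp; omega)
        simp only [hG, e']
        exact E.symm_apply_apply b
      exact ⟨u, z, _, hz, fun e => hb (this ▸ (mS _ _).2 e), rfl, this, h2⟩
  have cA : (#(X 𝒜) : ℝ) = (t + 1) * 4 ^ k := by simpa [hh] using sX 𝒜 fun _ => 1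
  have cB : #(X fun u => (𝒜 u)ᶜ) = #(X 𝒜) := by
    have := sX (fun u => (𝒜 u)ᶜ) fun _ => 1
    simp only [sum_cp (hs _), ← sX 𝒜 fun _ => 1] at this
    simpa using this
  have sub : ∀ A B φ, MP S A B φ → A ⊆ X 𝒜 ∧ B ⊆ X fun u => (𝒜 u)ᶜ := fun A B φ ⟨a, b, e, l⟩ => by
    refine ⟨fun x hx => ?_, fun y hy => ?_⟩
    · obtain ⟨u, z, w, h1, -, h2, -⟩ := key x (a hx) _ (mem_compl.1 (b (e.1 hx))) (l x hx).1
      exact (mX _ _).2 ⟨u, z, h1, h2⟩
    · obtain ⟨x, hx, rfl⟩ := e.2.2 hy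
      obtain ⟨u, z, w, -, h1, -, h2, -⟩ := key x (a hx) _ (mem_compl.1 (b hy)) (l x hx).1
      exact (mX _ _).2 ⟨u, w, mem_compl.2 h1, h2⟩
  obtain ⟨B₀, φ₀, h₀⟩ : ∃ B φ, MP S (X 𝒜) B φ := by
    set φ : Q _ → Q _ := fun y => E.symm ((E y).1, ψ ((E y).1.sum id) (E y).2) with hφ
    have e : ∀ u z, φ (G u z) = G u (ψ u z) := fun u z => by simp [hφ, hG]
    refine ⟨(X 𝒜).image φ, φ, subset_union_right, fun y hy => ?_, ?_, fun a ha => ?_⟩
    · obtain ⟨x, hx, rfl⟩ := mem_image.1 hy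
      obtain ⟨u, z, hz, rfl⟩ := (mX _ _).1 hx
      rw [mem_compl, e, mS]
      exact (ψ2 u z hz).2
    · rw [coe_image (s := X 𝒜)]
      refine Set.InjOn.bijOn_image fun x hx y hy h => ?_
      obtain ⟨u, z, hz, rfl⟩ := (mX _ _).1 hx
      obtain ⟨v, w, hw, rfl⟩ := (mX _ _).1 hy
      rw [e, e] at h
      obtain ⟨rfl, h⟩ := gi h
      rw [ψ1 u hz hw h]
    · obtain ⟨u, z, hz, rfl⟩ := (mX _ _).1 ha
      rw [e]
      refine Finset.ssubset_iff_subset_ne.2 ⟨(hE _ _).2 (by rw [EG, EG]; exact ⟨le_rfl, (ψ2 u z hz).1⟩),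
        fun h => (ψ2 u z hz).2 ((gi h).2 ▸ hz)⟩
  have dv : dvol S = #(X 𝒜) := IsGreatest.csSup_eq ⟨⟨_, _, _, h₀, rfl⟩, by
    rintro _ ⟨A, B, φ, h, rfl⟩
    exact card_le_card (sub A B φ h).1⟩
  have p4 : (0 : ℝ) < 4 ^ k := by positivity
  have val : ∀ A B φ, MP S A B φ → #A = dvol S →
      (∑ a ∈ A, (#(φ a) - #a : ℝ)) / #A = (t + L) / (t + 1) := fun A B φ h e => by
    obtain ⟨a, b⟩ := sub A B φ h
    obtain rfl := eq_of_subset_of_card_le a (by omega)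
    obtain rfl := eq_of_subset_of_card_le b (cB.trans (card_nbij φ h.2.2.1.1 h.2.2.1.2.1 h.2.2.1.2.2)).le
    rw [sum_sub_distrib, sum_nbij φ h.2.2.1.1 h.2.2.1.2.1 h.2.2.1.2.2 (g := fun y => (#y : ℝ))
      fun _ _ => rfl, sX, sX, ← sum_sub_distrib, cA]
    have : ∀ u, ∑ z ∈ (𝒜 u)ᶜ, (#(G u z) : ℝ) - ∑ z ∈ 𝒜 u, (#(G u z) : ℝ) =
        ∑ z ∈ 𝒜 u, (((2 * k + 1 : ℕ) : ℝ) - 2 * #z) := fun u => by
      rw [sum_cp (hs u), ← sum_sub_distrib]
      refine sum_congr rfl fun z _ => ?_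
      have := card_add_card_compl z
      rw [Fintype.card_fin] at this
      have : (#z + #zᶜ : ℝ) = (2 * k + 1 : ℕ) := by exact_mod_cast this
      rw [cG, cG, ← this]
      push_cast
      ring
    simp only [this]
    have d1 : ∀ u : Fin t, ∑ z ∈ 𝒜 u.succ, (((2 * k + 1 : ℕ) : ℝ) - 2 * #z) = 4 ^ k := fun u => by
      rw [← hh u.succ]; simp only [h𝒜, if_neg u.succ_ne_zero]; exact dict 0
    rw [Fin.sum_univ_succ, sum_congr rfl fun u _ => d1 u]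
    simp only [h𝒜, if_true, maj, sum_const, card_univ, Fintype.card_fin, nsmul_eq_mul, hL]
    field_simp
    ring
  have sp : sep S = (t + L) / (t + 1) := IsLeast.csInf_eq ⟨⟨_, _, _, h₀, dv.symm,
    (val _ _ _ h₀ dv.symm).symm⟩, by
      rintro _ ⟨A, B, φ, h, e, rfl⟩
      exact (val A B φ h e).ge⟩
  have := H _ (by omega) S (by
    rw [dv]; exact_mod_cast (by rw [cA]; positivity : (0 : ℝ) < #(X 𝒜)))
  refine absurd (this.trans (csSup_le (a := (t + sep S ^ 2) * 4 ^ k)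
    ⟨_, 0, 0, 0, ⟨by simp, by simp, by simp [sq_nonneg]⟩, rfl⟩ ?_)) (not_le.2 ?_)
  · rintro _ ⟨σ, τ, f, ⟨f1, f2, f3⟩, rfl⟩
    refine (cut S σ τ f (fun v => (f1 v).2.2.1) (fun v => (f1 v).2.2.2) (fun x y => (f2 x y).1)
      fun v => (f3 v).1).trans ?_
    have ks : ∀ v y, f v y ≠ 0 → v ⊆ y ∧ #y = #v + 1 := fun v y h => by
      obtain ⟨i, hi, rfl⟩ := (f2 v y).2.2 h
      exact ⟨subset_insert _ _, card_insert_of_notMem hi⟩
    rw [← sum_subset (subset_union_right : X 𝒜 ⊆ S) fun v hv h => sum_eq_zero fun y hy => by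
      by_contra e
      obtain ⟨u, z, w, h1, -, h2, -⟩ := key v hv y (mem_compl.1 hy) (ks v y e).1
      exact h ((mX _ _).2 ⟨u, z, h1, h2⟩), sX, Fin.sum_univ_succ, add_comm, add_mul]
    refine add_le_add ?_ ?_
    · refine (sum_le_card_nsmul _ _ (4 ^ k) fun u _ => ?_).trans (by simp)
      rw [← hh u.succ]
      refine (sum_le_card_nsmul _ _ 1 fun z hz => ?_).trans (by simp)
      refine (sum_filter_ne_zero _).ge.trans ((sum_le_sum_of_subset_of_nonneg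
        (t := {G u.succ (insert 0 z)}) (fun y hy => ?_) fun y _ _ => (f2 _ _).1).trans
          (by simpa using (f2 _ _).2.1))
      obtain ⟨hy, e⟩ := mem_filter.1 hy
      obtain ⟨v, z', w, -, h1, h2, rfl, h3⟩ := key _ ((mS _ _).2 hz) y (mem_compl.1 hy) (ks _ y e).1
      obtain ⟨rfl, rfl⟩ := gi h2
      have h4 := (ks _ _ e).2
      simp only [h𝒜, if_neg u.succ_ne_zero, mem_filter, mem_univ, true_and, not_not] at hz h1
      rw [cG, cG] at h4
      rw [mem_singleton, eq_of_subset_of_card_le (insert_subset h1 h3)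
        (by rw [card_insert_of_notMem hz]; omega)]
    · rw [← hh 0, mul_comm (sep S ^ 2)]
      refine (sum_le_card_nsmul _ _ (sep S ^ 2) fun z _ => ?_).trans (by simp)
      have := sum_le_univ_sum_of_nonneg (s := Sᶜ) fun y => (f2 (G 0 z) y).1
      linarith [(f1 (G 0 z)).2.1, (f3 (G 0 z)).1, (f3 (G 0 z)).2]
  · rw [dv, cA, sp, mul_assoc, ← mul_assoc ((t + L) / _), div_mul_cancel₀ _ (by positivity),
      ← mul_assoc]
    exact mul_lt_mul_of_pos_right ht p4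

end Pool.Agent.Results.MP_02b125_co.No
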